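import Pool.Agent.X76.PM16

set_option autoImplicit false

/-!
The chromatic index of multigraphs of even order with a vertex `v` such that in `G - v` the maximum
multiplicity is at most twice the minimum multiplicity and the degrees do not differ much.

A multigraph with vertex set `W` is given by the numbers `b x y` of edges between `x` and `y`.

Proof idea.  Let `n` be the order of `G - v` and `K = ⌈2 |E(G - v)| / (n - 1)⌉`.  The multigraph `G`
is a submultigraph of a `K`-regular multigraph in which the maximum multiplicity is at most about twice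
the minimum multiplicity (except on a matching), which is `1`-factorable by a theorem proved in the
helper files (Kempe changes and induction on the minimum multiplicity).
-/

namespace Pool.Agent.Results.MP_7ac802_co.EvenNearUniform

open Finset

/-- The edges of the multigraph with `b x y` edges between `x` and `y` can be coloured with `k`
colours such that edges with a common end have different colours: the edges of the colour `c` join
`x` and `φ c x` (`φ c x = x` if no edge of the colour `c` is at `x`). -/
def EdgeColourable {W : Type} (k : ℕ) (b : W → W → ℕ) : Prop :=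
  ∃ φ : Fin k → W → W, (∀ c x, φ c (φ c x) = x) ∧
    ∀ x y, x ≠ y → Nat.card {c // φ c x = y} = b x y

/-- The multigraph obtained from `b` by adding a vertex `none` joined to every vertex `x` of `b` by
`c x` edges. -/
def addVertex {W : Type} (b : W → W → ℕ) (c : W → ℕ) : Option W → Option W → ℕ
  | some x, some y => b x y
  | some x, none => c x
  | none, some y => c y
  | none, none => 0

/-- A colouring of a multigraph gives a colouring of its submultigraphs. -/
theorem restrict {W : Type} {k : ℕ} (b b' : W → W → ℕ)
    (hs : ∀ x y, b x y = b y x) (φ : Fin k → W → W) (h1 : ∀ c x, φ c (φ c x) = x)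
    (h2 : ∀ x y, x ≠ y → Nat.card {c // φ c x = y} = b' x y)
    (hb : ∀ x y, x ≠ y → b x y ≤ b' x y) : EdgeColourable k b := by
  classical
  have hT : ∀ (S : Finset (Fin k)) (t : ℕ), ∃ T : Finset (Fin k), t ≤ S.card → T ⊆ S ∧
      T.card = t := by
    intro S t
    by_cases h : t ≤ S.card
    · obtain ⟨T, h3, h4⟩ := Finset.exists_subset_card_eq h
      exact ⟨T, fun _ => ⟨h3, h4⟩⟩
    · exact ⟨∅, fun h' => absurd h' h⟩
  choose T hT using hT
  have hsw : ∀ x y, (univ.filter fun c => φ c x = y) = univ.filter fun c => φ c y = x := by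
    intro x y
    ext c
    simp only [mem_filter, mem_univ, true_and]
    constructor
    · rintro rfl; exact h1 _ _
    · rintro rfl; exact h1 _ _
  refine ⟨fun c x => if c ∈ T (univ.filter fun c' => φ c' x = φ c x) (b x (φ c x)) then φ c x
    else x, ?_, ?_⟩
  · intro c x
    by_cases h : c ∈ T (univ.filter fun c' => φ c' x = φ c x) (b x (φ c x))
    · have h3 : c ∈ T (univ.filter fun c' => φ c' (φ c x) = x) (b (φ c x) x) := by
        rw [← hsw, hs (φ c x) x]
        exact h
      simp only [if_pos h, h1, if_pos h3]
    · simp only [if_neg h]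
  · intro x y hxy
    have h3 := hT (univ.filter fun c => φ c x = y) (b x y) (by
      rw [← X76.PM.card_sub, h2 x y hxy]
      exact hb x y hxy)
    rw [X76.PM.card_sub, ← h3.2]
    congr 1
    ext c
    simp only [mem_filter, mem_univ, true_and]
    constructor
    · intro h
      by_cases h4 : c ∈ T (univ.filter fun c' => φ c' x = φ c x) (b x (φ c x))
      · rw [if_pos h4] at h
        rw [h] at h4
        exact h4
      · rw [if_neg h4] at h
        exact absurd h hxy
    · intro h
      have h5 : φ c x = y := (mem_filter.1 (h3.1 h)).2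
      rw [h5, if_pos h]

/-- Every colour class has at most `(n - 1) / 2` edges. -/
theorem lower {W : Type} [Fintype W] (m : ℕ) (hm : Fintype.card W = 2 * m + 1)
    (b : W → W → ℕ) (h0 : ∀ x, b x x = 0) (k : ℕ) (hφ : EdgeColourable k b) :
    ∑ x, ∑ y, b x y ≤ k * (2 * m) := by
  classical
  obtain ⟨φ, h1, h2⟩ := hφ
  have h3 : ∀ c, (univ.filter fun x => φ c x ≠ x).card ≤ 2 * m := by
    intro c
    have h4 := X76.PM.fix_parity (φ c) (h1 c) univ (fun x _ => mem_univ _)
    have h5 : (univ.filter fun x => φ c x ≠ x).card ≤ 2 * m + 1 := by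
      rw [← hm, ← card_univ]
      exact Finset.card_le_card (Finset.filter_subset _ _)
    obtain ⟨j, hj⟩ := h4
    omega
  have h4 : ∑ x, ∑ y, b x y = ∑ c : Fin k, (univ.filter fun x => φ c x ≠ x).card := by
    have h5 : ∀ x, ∑ c : Fin k, (if φ c x ≠ x then 1 else 0) = ∑ y, b x y := by
      intro x
      rw [← Finset.card_filter,
        ← Finset.add_sum_erase univ (fun y => b x y) (mem_univ x), h0, zero_add]
      have h6 : ∑ y ∈ univ.erase x, b x y =
          ∑ y ∈ univ.erase x, (univ.filter fun c => φ c x = y).card := by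
        apply Finset.sum_congr rfl
        intro y hy
        rw [← h2 x y (Finset.ne_of_mem_erase hy).symm, X76.PM.card_sub]
      rw [h6]
      rw [Finset.card_eq_sum_card_fiberwise (f := fun c => φ c x) (t := univ.erase x)]
      · apply Finset.sum_congr rfl
        intro y hy
        congr 1
        ext c
        simp only [mem_filter, mem_univ, true_and]
        constructor
        · rintro ⟨-, h⟩; exact h
        · intro h
          exact ⟨by rw [h]; exact Finset.ne_of_mem_erase hy, h⟩
      · intro c hc
        rw [Finset.mem_coe, mem_filter] at hc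
        rw [Finset.mem_coe, mem_erase]
        exact ⟨hc.2, mem_univ _⟩
    simp_rw [Finset.card_filter]
    exact (Finset.sum_congr rfl fun x _ => (h5 x).symm).trans Finset.sum_comm
  rw [h4]
  refine (Finset.sum_le_sum fun c _ => h3 c).trans ?_
  rw [Finset.sum_const, card_univ, Fintype.card_fin, smul_eq_mul]

/-- The colouring obtained from a `1`-factorization of the extended multigraph. -/
theorem upper {W : Type} [Fintype W] (m : ℕ) (hm : Fintype.card W = 2 * m + 1)
    (b : W → W → ℕ) (hs : ∀ x y, b x y = b y x) (h0 : ∀ x, b x x = 0) (c : W → ℕ)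
    (l : ℕ) (hl : ∀ x y, x ≠ y → l ≤ b x y ∧ b x y ≤ 2 * l) (K e : ℕ) (M : Finset W)
    (hMc : M.card = 2 * e) (he : K * (2 * m) = ∑ x, ∑ y, b x y + 2 * e)
    (hd1 : ∀ x, ∑ y, b x y + l ≤ K) (hdM : ∀ x ∈ M, ∑ y, b x y + l + 1 ≤ K)
    (hd2 : ∀ x, K ≤ ∑ y, b x y + 2 * l) (hc : ∀ x, ∑ y, b x y + c x ≤ K)
    (hcM : ∀ x ∈ M, ∑ y, b x y + c x + 1 ≤ K) (k : ℕ) (hk : K ≤ k) :
    EdgeColourable k (addVertex b c) := by
  classical
  obtain ⟨ν, hν⟩ := X76.PM.exists_pairing e M hMc
  let B : Option W → Option W → ℕ := fun p s => match p, s with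
    | some x, some y => b x y + if x ∈ M ∧ ν x = y then 1 else 0
    | some x, none => K - ∑ y, b x y - if x ∈ M then 1 else 0
    | none, some y => K - ∑ z, b y z - if y ∈ M then 1 else 0
    | none, none => 0
  have hqM : ∀ x, (K - ∑ y, b x y - if x ∈ M then 1 else 0) + ∑ y, b x y +
      (if x ∈ M then 1 else 0) = K ∧ l ≤ (K - ∑ y, b x y - if x ∈ M then 1 else 0) ∧
      (K - ∑ y, b x y - if x ∈ M then 1 else 0) ≤ 2 * l := by
    intro x
    have h1 := hd1 x
    have h2 := hd2 x
    by_cases hx : x ∈ M
    · have h3 := hdM x hx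
      rw [if_pos hx]
      omega
    · rw [if_neg hx]
      omega
  have hBs : ∀ p s, B p s = B s p := by
    rintro (_ | x) (_ | y)
    · rfl
    · rfl
    · rfl
    · show b x y + (if x ∈ M ∧ ν x = y then 1 else 0) =
        b y x + (if y ∈ M ∧ ν y = x then 1 else 0)
      rw [hs x y]
      congr 1
      have h1 : (x ∈ M ∧ ν x = y) ↔ (y ∈ M ∧ ν y = x) := by
        constructor
        · rintro ⟨h1, rfl⟩
          exact ⟨(hν x h1).1, (hν x h1).2.2⟩
        · rintro ⟨h1, rfl⟩
          exact ⟨(hν y h1).1, (hν y h1).2.2⟩
      simp only [h1]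
  have hB0 : ∀ p, B p p = 0 := by
    rintro (_ | x)
    · rfl
    · show b x x + (if x ∈ M ∧ ν x = x then 1 else 0) = 0
      rw [h0, if_neg (fun h => (hν x h.1).2.1 h.2)]
  have hBr : ∀ p, ∑ s, B p s = K := by
    rintro (_ | x)
    · rw [Fintype.sum_option]
      show 0 + ∑ y, (K - ∑ z, b y z - if y ∈ M then 1 else 0) = K
      have h1 : ∑ y, (K - ∑ z, b y z - if y ∈ M then 1 else 0) + ∑ y, ∑ z, b y z +
          ∑ y, (if y ∈ M then 1 else 0) = (2 * m + 1) * K := by
        rw [← Finset.sum_add_distrib, ← Finset.sum_add_distrib,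
          Finset.sum_congr rfl fun y _ => (hqM y).1, Finset.sum_const, card_univ, hm,
          smul_eq_mul]
      have h2 : ∑ y : W, (if y ∈ M then 1 else 0) = 2 * e := by
        rw [← Finset.card_filter, ← hMc]
        congr 1
        ext y
        simp
      have h3 : (2 * m + 1) * K = K * (2 * m) + K := by ring
      omega
    · rw [Fintype.sum_option]
      show (K - ∑ z, b x z - if x ∈ M then 1 else 0) +
        ∑ y, (b x y + if x ∈ M ∧ ν x = y then 1 else 0) = K
      rw [Finset.sum_add_distrib]
      have h1 : ∑ y, (if x ∈ M ∧ ν x = y then 1 else 0) = if x ∈ M then 1 else 0 := by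
        by_cases hx : x ∈ M
        · simp [hx]
        · simp [hx]
      rw [h1]
      have := (hqM x).1
      omega
  have hcard : Fintype.card (Option W) = 2 * m + 2 := by
    rw [Fintype.card_option, hm]
  have hcov := X76.PM.near_uniform (W := Option W) (by rw [hcard]; exact ⟨m + 1, by ring⟩) B hBs
    hB0 K hBr l (by
      rintro (_ | x) (_ | y) hxy
      · exact absurd rfl hxy
      · exact (hqM y).2.1
      · exact (hqM x).2.1
      · have := (hl x y (fun h => hxy (by rw [h]))).1
        show l ≤ b x y + _
        omega) (Or.inr (Or.inl ⟨by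
      rintro (_ | x) (_ | y)
      · exact Nat.zero_le _
      · show (K - ∑ z, b y z - if y ∈ M then 1 else 0) ≤ 2 * l + 1
        have := (hqM y).2.2
        omega
      · show (K - ∑ z, b x z - if x ∈ M then 1 else 0) ≤ 2 * l + 1
        have := (hqM x).2.2
        omega
      · show b x y + (if x ∈ M ∧ ν x = y then 1 else 0) ≤ 2 * l + 1
        by_cases hxy : x = y
        · subst hxy
          rw [h0]
          split_ifs <;> omega
        · have := (hl x y hxy).2
          split_ifs <;> omega, by
      have hkey : ∀ p s, B p s = 2 * l + 1 → ∃ x y, p = some x ∧ s = some y ∧ x ∈ M ∧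
          ν x = y := by
        rintro (_ | x) (_ | y) h
        · exact absurd h (by show ¬ (0 = 2 * l + 1); omega)
        · exfalso
          have h' : (K - ∑ z, b y z - if y ∈ M then 1 else 0) = 2 * l + 1 := h
          have := (hqM y).2.2
          omega
        · exfalso
          have h' : (K - ∑ z, b x z - if x ∈ M then 1 else 0) = 2 * l + 1 := h
          have := (hqM x).2.2
          omega
        · have h' : b x y + (if x ∈ M ∧ ν x = y then 1 else 0) = 2 * l + 1 := h
          by_cases hc : x ∈ M ∧ ν x = y
          · exact ⟨x, y, rfl, rfl, hc.1, hc.2⟩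
          · exfalso
            rw [if_neg hc] at h'
            by_cases hxy : x = y
            · subst hxy
              rw [h0] at h'
              omega
            · have := (hl x y hxy).2
              omega
      intro p s s' h h'
      obtain ⟨x, y, rfl, rfl, -, rfl⟩ := hkey p s h
      obtain ⟨x', y', hx', rfl, -, rfl⟩ := hkey _ s' h'
      rw [Option.some.inj hx']⟩)) 1
  obtain ⟨σ, hσ1, hσ2⟩ := hcov
  have hle : 1 * K ≤ k := by rw [one_mul]; exact hk
  have hsym : ∀ p s, addVertex b c p s = addVertex b c s p := by
    rintro (_ | x) (_ | y)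
    · rfl
    · rfl
    · rfl
    · exact hs x y
  refine restrict (addVertex b c) (fun p s => Nat.card {i : Fin k // (if h : i.val < 1 * K then
    σ ⟨i.val, h⟩ p else p) = s}) hsym
    (fun i p => if h : i.val < 1 * K then σ ⟨i.val, h⟩ p else p)
    ?_ (fun x y _ => rfl) ?_
  · intro i p
    by_cases h : i.val < 1 * K
    · simp only [dif_pos h, (hσ1 _ _).1]
    · simp only [dif_neg h]
  · intro p s hps
    have h1 : addVertex b c p s ≤ Nat.card {i // σ i p = s} := by
      rw [hσ2 p s, one_mul]
      rcases p with _ | x <;> rcases s with _ | y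
      · exact Nat.zero_le _
      · show c y ≤ K - ∑ z, b y z - if y ∈ M then 1 else 0
        have h2 := hc y
        by_cases hy : y ∈ M
        · have h3 := hcM y hy
          rw [if_pos hy]
          omega
        · rw [if_neg hy]
          omega
      · show c x ≤ K - ∑ z, b x z - if x ∈ M then 1 else 0
        have h2 := hc x
        by_cases hy : x ∈ M
        · have h3 := hcM x hy
          rw [if_pos hy]
          omega
        · rw [if_neg hy]
          omega
      · show b x y ≤ b x y + _
        omega
    refine h1.trans ?_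
    refine Nat.card_le_card_of_injective
      (fun i : {i // σ i p = s} =>
        (⟨⟨i.1.val, lt_of_lt_of_le i.1.isLt hle⟩, by
          rw [dif_pos (show (⟨i.1.val, lt_of_lt_of_le i.1.isLt hle⟩ : Fin k).val < 1 * K
            from i.1.isLt)]
          exact i.2⟩ : {i : Fin k // (if h : i.val < 1 * K then
            σ ⟨i.val, h⟩ p else p) = s})) ?_
    intro i j hij
    have h2 := congrArg (fun t => (t.1 : Fin k).val) hij
    exact Subtype.ext (Fin.ext h2)

/-- The multigraph without the additional vertex. -/
theorem old_vertices {W : Type} (b : W → W → ℕ) (hs : ∀ x y, b x y = b y x) (c : W → ℕ)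
    (k : ℕ) (h : EdgeColourable k (addVertex b c)) : EdgeColourable k b := by
  obtain ⟨σ, hσ1, hσ2⟩ := h
  refine restrict b (fun x y => Nat.card {i : Fin k // (σ i (some x)).getD x = y}) hs
    (fun i x => (σ i (some x)).getD x) ?_ (fun x y _ => rfl) ?_
  · intro i x
    cases h' : σ i (some x) with
    | none => simp only [Option.getD_none, h']
    | some y =>
      simp only [Option.getD_some]
      rw [← h', hσ1]
      simp
  · intro x y hxy
    have h1 : b x y = Nat.card {i // σ i (some x) = some y} := by
      rw [hσ2 (some x) (some y) (fun h => hxy (Option.some.inj h))]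
      rfl
    rw [h1]
    refine Nat.card_le_card_of_injective
      (fun i : {i // σ i (some x) = some y} =>
        (⟨i.1, by
          show (σ i.1 (some x)).getD x = y
          rw [i.2]
          rfl⟩ : {i : Fin k // (σ i (some x)).getD x = y})) ?_
    intro i j hij
    have h2 := congrArg (fun t => (t.1 : Fin k)) hij
    exact Subtype.ext h2

/-- **The overfull conjecture for near-uniform multigraphs of even order with an overfull vertex-deleted
submultigraph.**  Let `b` be a loopless multigraph of odd order `n ≥ 3` with `l ≤ b x y ≤ 2 l` for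
`x ≠ y`, and `K` its number of edges divided by `⌊n / 2⌋`, rounded up.  Suppose that all degrees of `b`
are between `K - 2 l` and `K - l`.  Add a vertex, joined to `x` by `c x` edges (`c` arbitrary) such
that the degree of `x` is still at most `K`, and suppose that at least `K (n - 1) - 2 |E|` vertices `x`
have a degree less than `K - l` before and less than `K` after adding the vertex.  Then the chromatic
index of the multigraph (of even order) is `K`. -/
theorem result (W : Type) [Fintype W] (hW : Odd (Fintype.card W)) (hW3 : 3 ≤ Fintype.card W)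
    (b : W → W → ℕ) (hs : ∀ x y, b x y = b y x) (h0 : ∀ x, b x x = 0)
    (l : ℕ) (hl : ∀ x y, x ≠ y → l ≤ b x y ∧ b x y ≤ 2 * l) (c : W → ℕ)
    (K : ℕ) (hK1 : ∑ x, ∑ y, b x y ≤ K * (Fintype.card W - 1))
    (hK2 : K * (Fintype.card W - 1) < ∑ x, ∑ y, b x y + (Fintype.card W - 1))
    (hd : ∀ x, ∑ y, b x y + l ≤ K ∧ K ≤ ∑ y, b x y + 2 * l)
    (hc : ∀ x, ∑ y, b x y + c x ≤ K)
    (hM : K * (Fintype.card W - 1) ≤ ∑ x, ∑ y, b x y +
      Nat.card {x // ∑ y, b x y + l < K ∧ ∑ y, b x y + c x < K}) (k : ℕ) :
    EdgeColourable k (addVertex b c) ↔ K ≤ k := by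
  classical
  obtain ⟨m, hm⟩ : ∃ m, Fintype.card W = 2 * m + 1 := hW
  have hm1 : 1 ≤ m := by omega
  have hn1 : Fintype.card W - 1 = 2 * m := by omega
  have hev := X76.Det.even_sum_symm b hs (fun x => by rw [h0]; exact Even.zero) univ
  rw [hn1] at hK1 hK2 hM
  constructor
  · intro h
    have h1 := lower m hm b h0 k (old_vertices b hs c k h)
    by_contra hlt
    have h2 : (k + 1) * (2 * m) ≤ K * (2 * m) := Nat.mul_le_mul_right _ (by omega)
    have h3 : (k + 1) * (2 * m) = k * (2 * m) + 2 * m := by ring
    omega
  · intro hk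
    obtain ⟨e, he⟩ : ∃ e, K * (2 * m) = ∑ x, ∑ y, b x y + 2 * e := by
      obtain ⟨j, hj⟩ := hev
      refine ⟨K * m - j, ?_⟩
      have h1 : K * (2 * m) = 2 * (K * m) := by ring
      omega
    obtain ⟨M, hM1, hMc⟩ := Finset.exists_subset_card_eq
      (s := (univ.filter fun x : W => ∑ y, b x y + l < K ∧ ∑ y, b x y + c x < K))
      (n := 2 * e) (by
        rw [← X76.PM.card_sub]
        omega)
    exact upper m hm b hs h0 c l hl K e M hMc he (fun x => (hd x).1)
      (fun x hx => (mem_filter.1 (hM1 hx)).2.1) (fun x => (hd x).2) hc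
      (fun x hx => (mem_filter.1 (hM1 hx)).2.2) k hk

end Pool.Agent.Results.MP_7ac802_co.EvenNearUniform
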